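import Mathlib

set_option autoImplicit false

/-!
# The trivial character modulo two

Let `p i`, `i : ι`, be bounded functions on `X` with values in the natural numbers and `S` a finite
set of indices such that at every point of `X` some `p i`, `i ∈ S`, is odd. Then `1` lies in the
ideal generated by `2` and the `p i`, `i ∈ S`, in the ring generated by all `p i`.
-/

namespace Pool.Agent.TH293.OFE

variable {X ι : Type} (p : ι → X → ℕ)

/-- the product of the functions `p i`, `i` in the list -/
def mm (l : List ι) : X → ℤ := fun x => (l.map fun i => (p i x : ℤ)).prod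

theorem mm_nil : mm p [] = 1 := by
  funext x
  simp [mm]

theorem mm_cons (i : ι) (l : List ι) : mm p (i :: l) = (fun x => (p i x : ℤ)) * mm p l := by
  funext x
  simp [mm]

theorem mm_append (l l' : List ι) : mm p (l ++ l') = mm p l * mm p l' := by
  funext x
  simp [mm]

/-- the sum of the functions attached to the lists in a list of lists -/
def sm (L : List (List ι)) : X → ℤ := (L.map (mm p)).sum

theorem sm_append (L L' : List (List ι)) : sm p (L ++ L') = sm p L + sm p L' := by
  simp [sm]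

theorem sm_cons (l : List ι) (L : List (List ι)) : sm p (l :: L) = mm p l + sm p L := by
  simp [sm]

theorem sm_nil : sm p [] = 0 := by
  simp [sm]

theorem sm_map_cons (i : ι) (L : List (List ι)) :
    sm p (L.map (fun l => i :: l)) = (fun x => (p i x : ℤ)) * sm p L := by
  induction L with
  | nil => simp [sm_nil]
  | cons l L ih => rw [List.map_cons, sm_cons, sm_cons, ih, mm_cons, mul_add]

variable (N : ι → Prop)

/-- the functions `p i` for the admissible `i` -/
def base : Set (X → ℤ) := {f | ∃ i, N i ∧ f = fun x => (p i x : ℤ)}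

/-- a difference of two sums of products of admissible functions -/
def Rp (f : X → ℤ) : Prop := ∃ L L' : List (List ι), (∀ l ∈ L, ∀ i ∈ l, N i) ∧
  (∀ l ∈ L', ∀ i ∈ l, N i) ∧ f = sm p L - sm p L'

theorem rp_of_mem {f : X → ℤ} (hf : f ∈ Subring.closure (base p N)) : Rp p N f := by
  rw [Subring.mem_closure_iff] at hf
  induction hf using AddSubgroup.closure_induction with
  | mem x hx =>
    have h : ∃ l : List ι, (∀ i ∈ l, N i) ∧ x = mm p l := by
      have hx' : x ∈ Submonoid.closure (base p N) := hx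
      clear hx
      induction hx' using Submonoid.closure_induction with
      | mem x hx =>
        obtain ⟨i, hi, rfl⟩ := hx
        refine ⟨[i], ?_, ?_⟩
        · intro j hj
          rw [List.mem_singleton] at hj
          rw [hj]
          exact hi
        · rw [mm_cons, mm_nil, mul_one]
      | one => exact ⟨[], fun i hi => absurd hi List.not_mem_nil, (mm_nil p).symm⟩
      | mul x y _ _ ihx ihy =>
        obtain ⟨l, h1, rfl⟩ := ihx
        obtain ⟨l', h2, rfl⟩ := ihy
        refine ⟨l ++ l', fun i hi => ?_, (mm_append p l l').symm⟩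
        rcases List.mem_append.1 hi with h | h
        · exact h1 i h
        · exact h2 i h
    obtain ⟨l, h1, rfl⟩ := h
    refine ⟨[l], [], ?_, fun l hl => absurd hl List.not_mem_nil, ?_⟩
    · intro l' hl'
      rw [List.mem_singleton] at hl'
      rw [hl']
      exact h1
    · rw [sm_cons, sm_nil, add_zero, sub_zero]
  | zero => exact ⟨[], [], fun l hl => absurd hl List.not_mem_nil,
      fun l hl => absurd hl List.not_mem_nil, by rw [sub_self]⟩
  | add x y _ _ ihx ihy =>
    obtain ⟨L, L', h1, h2, rfl⟩ := ihx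
    obtain ⟨M, M', h3, h4, rfl⟩ := ihy
    refine ⟨L ++ M, L' ++ M', ?_, ?_, ?_⟩
    · intro l hl
      rcases List.mem_append.1 hl with h | h
      · exact h1 l h
      · exact h3 l h
    · intro l hl
      rcases List.mem_append.1 hl with h | h
      · exact h2 l h
      · exact h4 l h
    · rw [sm_append, sm_append]
      ring
  | neg x _ ih =>
    obtain ⟨L, L', h1, h2, rfl⟩ := ih
    exact ⟨L', L, h2, h1, by ring⟩

theorem fin_range (hb : ∀ i, N i → ∃ B : ℕ, ∀ x, p i x ≤ B) {f : X → ℤ}
    (hf : f ∈ Subring.closure (base p N)) : (Set.range f).Finite := by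
  induction hf using Subring.closure_induction with
  | mem x hx =>
    obtain ⟨i, hi, rfl⟩ := hx
    obtain ⟨B, hB⟩ := hb i hi
    refine (Set.finite_Icc (0 : ℤ) B).subset ?_
    rintro _ ⟨y, rfl⟩
    refine ⟨?_, ?_⟩
    · show (0 : ℤ) ≤ (p i y : ℤ)
      positivity
    · show (p i y : ℤ) ≤ (B : ℤ)
      exact_mod_cast hB y
  | zero => exact (Set.finite_singleton (0 : ℤ)).subset (by rintro _ ⟨y, rfl⟩; rfl)
  | one => exact (Set.finite_singleton (1 : ℤ)).subset (by rintro _ ⟨y, rfl⟩; rfl)
  | add f g _ _ ihf ihg =>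
    refine (Set.Finite.image2 (fun a b => a + b) ihf ihg).subset ?_
    rintro _ ⟨y, rfl⟩
    exact ⟨f y, ⟨y, rfl⟩, g y, ⟨y, rfl⟩, rfl⟩
  | neg f _ ihf =>
    refine (ihf.image (fun a => -a)).subset ?_
    rintro _ ⟨y, rfl⟩
    exact ⟨f y, ⟨y, rfl⟩, rfl⟩
  | mul f g _ _ ihf ihg =>
    refine (Set.Finite.image2 (fun a b => a * b) ihf ihg).subset ?_
    rintro _ ⟨y, rfl⟩
    exact ⟨f y, ⟨y, rfl⟩, g y, ⟨y, rfl⟩, rfl⟩

/-- **The trivial character modulo two.** -/
theorem core (hb : ∀ i, N i → ∃ B : ℕ, ∀ x, p i x ≤ B) (S : Finset ι) (hS : ∀ i ∈ S, N i)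
    (hodd : ∀ x, ∃ i ∈ S, Odd (p i x)) :
    ∃ J J' D D' : List (List ι), (∀ l ∈ J, ∀ i ∈ l, N i) ∧ (∀ l ∈ J', ∀ i ∈ l, N i) ∧
      (∀ l ∈ D, ∀ i ∈ l, N i) ∧ (∀ l ∈ D', ∀ i ∈ l, N i) ∧
      (∀ l ∈ J, ∃ i ∈ S, ∃ t, l = i :: t) ∧ (∀ l ∈ J', ∃ i ∈ S, ∃ t, l = i :: t) ∧
      1 + (sm p J' + 2 * sm p D') = sm p J + 2 * sm p D := by
  classical
  let P : Subring (X → ℤ) := Subring.closure (base p N)
  let e : {i // i ∈ S} → P := fun i =>
    ⟨fun x => (p i.1 x : ℤ), Subring.subset_closure ⟨i.1, hS i.1 i.2, rfl⟩⟩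
  let I : Ideal P := Ideal.span (Set.range e)
  let J2 : Ideal P := I ⊔ Ideal.span {2}
  have hmem : (1 : P) ∈ J2 := by
    rw [← Ideal.Quotient.eq_zero_iff_mem]
    set π := Ideal.Quotient.mk J2 with hπ
    have h2 : (2 : P ⧸ J2) = 0 := by
      have : π 2 = 0 := Ideal.Quotient.eq_zero_iff_mem.2
        ((le_sup_right : _ ≤ J2) (Ideal.subset_span rfl))
      rw [← this, map_ofNat]
    have he : ∀ i, π (e i) = 0 := fun i => Ideal.Quotient.eq_zero_iff_mem.2
      ((le_sup_left : _ ≤ J2) (Ideal.subset_span ⟨i, rfl⟩))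
    let u : P := ∏ i : {i // i ∈ S}, (1 - e i)
    have hu : π u = 1 := by
      simp only [u, map_prod, map_sub, map_one, he, sub_zero, Finset.prod_const_one]
    have hev : ∀ x, Even ((u : X → ℤ) x) := by
      intro x
      obtain ⟨i, hi, hodd'⟩ := hodd x
      have h3 : (u : X → ℤ) x = ∏ i : {i // i ∈ S}, (1 - (p i.1 x : ℤ)) := by
        have h4 : (u : X → ℤ) = ∏ i : {i // i ∈ S}, ((1 - e i : P) : X → ℤ) :=
          map_prod P.subtype _ _
        rw [h4, Finset.prod_apply]
        rfl
      rw [h3]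
      have h5 : Odd (p i x : ℤ) := by exact_mod_cast hodd'
      have h6 : Even (1 - (p i x : ℤ)) := odd_one.sub_odd h5
      rw [even_iff_two_dvd] at h6 ⊢
      exact h6.trans (Finset.dvd_prod_of_mem (fun i : {i // i ∈ S} => (1 - (p i.1 x : ℤ)))
        (Finset.mem_univ (⟨i, hi⟩ : {i // i ∈ S})))
    have hfin := fin_range p N hb u.2
    have hprod : ∏ n ∈ hfin.toFinset, (u - (n : P)) = 0 := by
      apply Subtype.ext
      have h4 : ((∏ n ∈ hfin.toFinset, (u - (n : P)) : P) : X → ℤ) =
          ∏ n ∈ hfin.toFinset, ((u - (n : P) : P) : X → ℤ) := map_prod P.subtype _ _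
      rw [h4]
      funext x
      rw [Finset.prod_apply]
      apply Finset.prod_eq_zero (i := (u : X → ℤ) x)
      · rw [Set.Finite.mem_toFinset]
        exact ⟨x, rfl⟩
      · have h5 : ((u - (((u : X → ℤ) x : ℤ) : P) : P) : X → ℤ) x =
            (u : X → ℤ) x - (((((u : X → ℤ) x : ℤ) : P) : X → ℤ)) x := rfl
        rw [h5]
        have h6 : ((((u : X → ℤ) x : ℤ) : P) : X → ℤ) x = (u : X → ℤ) x := by
          have : ∀ n : ℤ, (((n : ℤ) : P) : X → ℤ) = (n : X → ℤ) := fun n => map_intCast P.subtype n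
          rw [this]
          rfl
        rw [h6, sub_self]
    have h7 := congrArg π hprod
    rw [map_prod, map_zero] at h7
    have h8 : ∀ n ∈ hfin.toFinset, π (u - (n : P)) = 1 := by
      intro n hn
      rw [Set.Finite.mem_toFinset] at hn
      obtain ⟨x, hx⟩ := hn
      obtain ⟨k, hk⟩ := hev x
      rw [map_sub, hu, map_intCast, ← hx, hk]
      push_cast
      have : ((k : ℤ) : P ⧸ J2) + (k : P ⧸ J2) = 2 * k := by ring
      rw [this, h2, zero_mul, sub_zero]
    rw [Finset.prod_congr rfl h8, Finset.prod_const_one] at h7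
    rw [map_one]
    exact h7
  obtain ⟨a, ha, b, hb', hab⟩ := Submodule.mem_sup.1 hmem
  obtain ⟨c, rfl⟩ := Ideal.mem_span_singleton'.1 hb'
  -- the first summand
  have hI : ∃ J J' : List (List ι), (∀ l ∈ J, ∀ i ∈ l, N i) ∧ (∀ l ∈ J', ∀ i ∈ l, N i) ∧
      (∀ l ∈ J, ∃ i ∈ S, ∃ t, l = i :: t) ∧ (∀ l ∈ J', ∃ i ∈ S, ∃ t, l = i :: t) ∧
      (a : X → ℤ) = sm p J - sm p J' := by
    clear hab
    induction ha using Submodule.closure_induction with
    | zero => exact ⟨[], [], fun l hl => absurd hl List.not_mem_nil,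
        fun l hl => absurd hl List.not_mem_nil, fun l hl => absurd hl List.not_mem_nil,
        fun l hl => absurd hl List.not_mem_nil, by rw [sub_self]; rfl⟩
    | add x y _ _ ihx ihy =>
      obtain ⟨L, L', h1, h2, h5, h6, h9⟩ := ihx
      obtain ⟨M, M', h3, h4, h7, h8, h10⟩ := ihy
      refine ⟨L ++ M, L' ++ M', ?_, ?_, ?_, ?_, ?_⟩
      · intro l hl
        rcases List.mem_append.1 hl with h | h
        · exact h1 l h
        · exact h3 l h
      · intro l hl
        rcases List.mem_append.1 hl with h | h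
        · exact h2 l h
        · exact h4 l h
      · intro l hl
        rcases List.mem_append.1 hl with h | h
        · exact h5 l h
        · exact h7 l h
      · intro l hl
        rcases List.mem_append.1 hl with h | h
        · exact h6 l h
        · exact h8 l h
      · rw [Subring.coe_add, h9, h10, sm_append, sm_append]
        ring
    | smul_mem r x hx =>
      obtain ⟨i, rfl⟩ := hx
      obtain ⟨L, L', h1, h2, h3⟩ := rp_of_mem p N r.2
      refine ⟨L.map (fun l => i.1 :: l), L'.map (fun l => i.1 :: l), ?_, ?_, ?_, ?_, ?_⟩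
      · intro l hl j hj
        obtain ⟨t, ht, rfl⟩ := List.mem_map.1 hl
        rcases List.mem_cons.1 hj with h | h
        · rw [h]
          exact hS i.1 i.2
        · exact h1 t ht j h
      · intro l hl j hj
        obtain ⟨t, ht, rfl⟩ := List.mem_map.1 hl
        rcases List.mem_cons.1 hj with h | h
        · rw [h]
          exact hS i.1 i.2
        · exact h2 t ht j h
      · intro l hl
        obtain ⟨t, ht, rfl⟩ := List.mem_map.1 hl
        exact ⟨i.1, i.2, t, rfl⟩
      · intro l hl
        obtain ⟨t, ht, rfl⟩ := List.mem_map.1 hl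
        exact ⟨i.1, i.2, t, rfl⟩
      · rw [smul_eq_mul, Subring.coe_mul, h3, sm_map_cons, sm_map_cons]
        show (sm p L - sm p L') * (fun x => (p i.1 x : ℤ)) = _
        ring
  obtain ⟨J, J', h1, h2, h3, h4, h5⟩ := hI
  obtain ⟨D, D', h6, h7, h8⟩ := rp_of_mem p N c.2
  refine ⟨J, J', D, D', h1, h2, h6, h7, h3, h4, ?_⟩
  have h9 : (a : X → ℤ) + (c : X → ℤ) * 2 = 1 := by
    have := congrArg (fun z : P => (z : X → ℤ)) hab
    exact this
  rw [h5, h8] at h9
  rw [← h9]
  ring

end Pool.Agent.TH293.OFE
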