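import Pool.Agent.TH349.ORP.Rep
import Pool.Agent.TH293.OFE.Core

set_option autoImplicit false

/-!
# Fixed embeddings: bounds, and quartic polynomials with their cubic resolvents
-/

open NumberField NumberField.InfinitePlace IntermediateField
  Pool.Agent.TH965.St Pool.Agent.TH349.ORP

namespace Pool.Agent.TH293.OFE

theorem perm_bounded (K : IntermediateField ℚ Qb) (hK : NumberField K) :
    ∃ B : ℕ, ∀ g : GQ, perm K g ≤ B := by
  have h1 : IsOpen (K.fixingSubgroup : Set GQ) := K.fixingSubgroup_isOpen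
  have h2 : Finite (GQ ⧸ K.fixingSubgroup) := Subgroup.quotient_finite_of_isOpen _ h1
  refine ⟨Nat.card (GQ ⧸ K.fixingSubgroup), fun g => ?_⟩
  exact Nat.card_le_card_of_injective (fun q : {q : GQ ⧸ K.fixingSubgroup // g • q = q} => q.1)
    Subtype.val_injective

theorem fld_one (x : Qb) : fld (x, 1) = ℚ⟮x⟯ := by
  unfold fld
  apply le_antisymm
  · rw [IntermediateField.adjoin_le_iff]
    rintro y (rfl | rfl)
    · exact IntermediateField.mem_adjoin_simple_self ℚ _
    · exact one_mem _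
  · rw [IntermediateField.adjoin_le_iff]
    rintro y rfl
    exact IntermediateField.subset_adjoin _ _ (by simp)

theorem nf_simple (x : Qb) : NumberField ℚ⟮x⟯ := by
  rw [← fld_one]
  exact nf_fld _

/-- the number of elements of a Galois stable finite set fixed by `g` is a sum of permutation
characters of the fields generated by its elements -/
theorem nfix_rep (A : Set Qb) (hA : ∀ (g : GQ), ∀ x ∈ A, g x ∈ A) (fA : A.Finite) :
    IsRep (fun K => ∃ x ∈ A, K = ℚ⟮x⟯) (fun g => nfix A g) :=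
  isRep_single A hA fA fun x hx => ⟨x, hx, fld_one x⟩

theorem exists_odd {Q : IntermediateField ℚ Qb → Prop} {f : GQ → ℕ} (h : IsRep Q f) {g : GQ}
    (hg : Odd (f g)) : ∃ K, Q K ∧ Odd (perm K g) := by
  obtain ⟨n, K, h1, h2⟩ := h
  by_contra hcon
  push Not at hcon
  rw [h2] at hg
  have h3 : Even (∑ a, perm (K a) g) := by
    rw [even_iff_two_dvd]
    apply Finset.dvd_sum
    intro a _
    rw [← even_iff_two_dvd, ← Nat.not_odd_iff_even]
    exact hcon (K a) (h1 a)
  exact (Nat.not_odd_iff_even.2 h3) hg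

theorem nfix_range {n : ℕ} {x : Fin n → Qb} (hx : Function.Injective x) (g : GQ) :
    nfix (Set.range x) g = Nat.card {i : Fin n // g (x i) = x i} := by
  unfold nfix
  symm
  refine Nat.card_congr (Equiv.ofBijective
    (fun i : {i : Fin n // g (x i) = x i} => (⟨x i.1, ⟨i.1, rfl⟩, i.2⟩ :
      {z : Qb // z ∈ Set.range x ∧ g z = z})) ⟨?_, ?_⟩)
  · intro i j h
    apply Subtype.ext
    apply hx
    exact congrArg Subtype.val h
  · rintro ⟨_, ⟨i, rfl⟩, h⟩
    exact ⟨⟨i, h⟩, rfl⟩

/-- the three pairings of four letters -/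
def pt : Fin 3 → Fin 4 → Fin 4 := ![![1, 0, 3, 2], ![2, 3, 0, 1], ![3, 2, 1, 0]]

theorem pt_exists : ∀ σ : Equiv.Perm (Fin 4), ∀ k : Fin 3, ∃ k' : Fin 3, ∀ i,
    pt k' (σ i) = σ (pt k i) := by
  decide

theorem pt_odd : ∀ σ : Equiv.Perm (Fin 4),
    Odd ((Finset.univ.filter fun i : Fin 4 => σ i = i).card +
      (Finset.univ.filter fun k : Fin 3 => ∀ i, pt k (σ i) = σ (pt k i)).card) := by
  decide

/-- the roots of the cubic resolvent of the quartic polynomial with the roots `x i` -/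
noncomputable def reso (x : Fin 4 → Qb) : Fin 3 → Qb :=
  ![x 0 * x 1 + x 2 * x 3, x 0 * x 2 + x 1 * x 3, x 0 * x 3 + x 1 * x 2]

theorem two_reso (x : Fin 4 → Qb) (k : Fin 3) : 2 * reso x k = ∑ i, x i * x (pt k i) := by
  fin_cases k <;> simp [reso, pt, Fin.sum_univ_four] <;> ring

theorem reso_inj {x : Fin 4 → Qb} (hx : Function.Injective x) :
    Function.Injective (reso x) := by
  have h : ∀ i j : Fin 4, i ≠ j → x i - x j ≠ 0 := fun i j hij h =>
    hij (hx (sub_eq_zero.1 h))
  have h01 : reso x 0 - reso x 1 ≠ 0 := by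
    have : reso x 0 - reso x 1 = (x 0 - x 3) * (x 1 - x 2) := by
      simp [reso]; ring
    rw [this]
    exact mul_ne_zero (h _ _ (by decide)) (h _ _ (by decide))
  have h02 : reso x 0 - reso x 2 ≠ 0 := by
    have : reso x 0 - reso x 2 = (x 0 - x 2) * (x 1 - x 3) := by
      simp [reso]; ring
    rw [this]
    exact mul_ne_zero (h _ _ (by decide)) (h _ _ (by decide))
  have h12 : reso x 1 - reso x 2 ≠ 0 := by
    have : reso x 1 - reso x 2 = (x 0 - x 1) * (x 2 - x 3) := by
      simp [reso]; ring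
    rw [this]
    exact mul_ne_zero (h _ _ (by decide)) (h _ _ (by decide))
  intro i j hij
  fin_cases i <;> fin_cases j
  · rfl
  · exact absurd (sub_eq_zero.2 hij) h01
  · exact absurd (sub_eq_zero.2 hij) h02
  · exact absurd (sub_eq_zero.2 hij.symm) h01
  · rfl
  · exact absurd (sub_eq_zero.2 hij) h12
  · exact absurd (sub_eq_zero.2 hij.symm) h02
  · exact absurd (sub_eq_zero.2 hij.symm) h12
  · rfl

theorem quartic {x : Fin 4 → Qb} (hx : Function.Injective x)
    (hst : ∀ (g : GQ) (i : Fin 4), ∃ j, g (x i) = x j) (g : GQ) :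
    ∃ K : IntermediateField ℚ Qb, ((∃ i, K = ℚ⟮x i⟯) ∨ ∃ k, K = ℚ⟮reso x k⟯) ∧
      Odd (perm K g) := by
  classical
  -- the permutation
  have hperm : ∀ g : GQ, ∃ σ : Equiv.Perm (Fin 4), ∀ i, g (x i) = x (σ i) := by
    intro g
    choose f hf using hst g
    have hinj : Function.Injective f := by
      intro i j hij
      apply hx
      apply g.injective
      rw [hf, hf, hij]
    exact ⟨Equiv.ofBijective f (Finite.injective_iff_bijective.1 hinj), hf⟩
  have hreso : ∀ (g : GQ) (σ : Equiv.Perm (Fin 4)), (∀ i, g (x i) = x (σ i)) →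
      ∀ k k' : Fin 3, (∀ i, pt k' (σ i) = σ (pt k i)) → g (reso x k) = reso x k' := by
    intro g σ hσ k k' hk
    have h2 : (2 : Qb) ≠ 0 := two_ne_zero
    apply mul_left_cancel₀ h2
    rw [two_reso]
    have h3 : (2 : Qb) * g (reso x k) = g (2 * reso x k) := by
      rw [map_mul, map_ofNat]
    rw [h3, two_reso, map_sum]
    have h4 : ∀ i, g (x i * x (pt k i)) = x (σ i) * x (pt k' (σ i)) := by
      intro i
      rw [map_mul, hσ, hσ, hk]
    simp only [h4]
    exact Equiv.sum_comp σ (fun j => x j * x (pt k' j))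
  have hA : ∀ (g : GQ), ∀ z ∈ Set.range x, g z ∈ Set.range x := by
    rintro g _ ⟨i, rfl⟩
    obtain ⟨j, hj⟩ := hst g i
    exact ⟨j, hj.symm⟩
  have hB : ∀ (g : GQ), ∀ z ∈ Set.range (reso x), g z ∈ Set.range (reso x) := by
    rintro g _ ⟨k, rfl⟩
    obtain ⟨σ, hσ⟩ := hperm g
    obtain ⟨k', hk'⟩ := pt_exists σ k
    exact ⟨k', (hreso g σ hσ k k' hk').symm⟩
  obtain ⟨σ, hσ⟩ := hperm g
  have e1 : nfix (Set.range x) g = (Finset.univ.filter fun i : Fin 4 => σ i = i).card := by
    rw [nfix_range hx, Nat.card_eq_fintype_card, Fintype.card_subtype]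
    congr 1
    ext i
    simp only [Finset.mem_filter, Finset.mem_univ, true_and]
    rw [hσ]
    exact ⟨fun h => hx h, fun h => by rw [h]⟩
  have e2 : nfix (Set.range (reso x)) g =
      (Finset.univ.filter fun k : Fin 3 => ∀ i, pt k (σ i) = σ (pt k i)).card := by
    rw [nfix_range (reso_inj hx), Nat.card_eq_fintype_card, Fintype.card_subtype]
    congr 1
    ext k
    simp only [Finset.mem_filter, Finset.mem_univ, true_and]
    constructor
    · intro h
      obtain ⟨k', hk'⟩ := pt_exists σ k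
      have h5 := hreso g σ hσ k k' hk'
      rw [h] at h5
      have h6 := reso_inj hx h5
      rw [← h6] at hk'
      exact hk'
    · intro h
      exact hreso g σ hσ k k h
  have h6 := pt_odd σ
  rw [← e1, ← e2] at h6
  have r1 := nfix_rep (Set.range x) hA (Set.finite_range x)
  have r2 := nfix_rep (Set.range (reso x)) hB (Set.finite_range _)
  rcases Nat.even_or_odd (nfix (Set.range x) g) with h7 | h7
  · have h8 : Odd (nfix (Set.range (reso x)) g) := by
      rcases Nat.even_or_odd (nfix (Set.range (reso x)) g) with h9 | h9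
      · exact absurd h6 (Nat.not_odd_iff_even.2 (h7.add h9))
      · exact h9
    obtain ⟨K, ⟨_, ⟨k, rfl⟩, rfl⟩, h10⟩ := exists_odd r2 h8
    exact ⟨_, Or.inr ⟨k, rfl⟩, h10⟩
  · obtain ⟨K, ⟨_, ⟨i, rfl⟩, rfl⟩, h10⟩ := exists_odd r1 h7
    exact ⟨_, Or.inl ⟨i, rfl⟩, h10⟩

end Pool.Agent.TH293.OFE
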